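import Mathlib

namespace Pool.Agent.H.MP_89478c_gt

/-- Elementary slices of a link diagram in Morse position, read from bottom to top: a local minimum
creating strands `k, k+1` (the left one oriented upwards iff `o`), a local maximum joining strands
`k, k+1`, a crossing of strands `k, k+1` (the strand coming from the lower left is over iff `b`). -/
inductive Slice
  | cup (k : ℕ) (o : Bool)
  | cap (k : ℕ)
  | cross (k : ℕ) (b : Bool)

/-- Effect of a slice on the list of orientations (`true` = upwards) of the strands. -/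
def Step0 : Slice → List Bool → List Bool → Prop
  | .cup k o, l, u => ∃ p q, p.length = k ∧ l = p ++ q ∧ u = p ++ o :: (!o) :: q
  | .cap k, l, u => ∃ p q o, p.length = k ∧ l = p ++ o :: (!o) :: q ∧ u = p ++ q
  | .cross k _, l, u => ∃ p q o o', p.length = k ∧ l = p ++ o :: o' :: q ∧ u = p ++ o' :: o :: q

/-- The slices fit together, from the level `l` up to the empty level. -/
def Valid : List Bool → List Slice → Prop
  | l, [] => l = []
  | l, s :: D => ∃ m, Step0 s l m ∧ Valid m D

def sgn (o : Bool) : ℤ := if o then 1 else -1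

/-- Effect of a slice on oriented strands with integer weights: along the orientation the weight
goes up by one at an over-passage, down by one at an under-passage, and is otherwise constant. -/
def Step : Slice → List (Bool × ℤ) → List (Bool × ℤ) → Prop
  | .cup k o, l, u => ∃ p q v, p.length = k ∧ l = p ++ q ∧ u = p ++ (o, v) :: (!o, v) :: q
  | .cap k, l, u => ∃ p q o v, p.length = k ∧ l = p ++ (o, v) :: (!o, v) :: q ∧ u = p ++ q
  | .cross k b, l, u => ∃ p q o o' v v', p.length = k ∧ l = p ++ (o, v) :: (o', v') :: q ∧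
      u = p ++ (o', v' - sgn o' * sgn b) :: (o, v + sgn o * sgn b) :: q

/-- The diagram has consistent weights, all of absolute value at most `R`. -/
def Weighted (R : ℤ) : List (Bool × ℤ) → List Slice → Prop
  | l, [] => l = []
  | l, s :: D => (∀ e ∈ l, |e.2| ≤ R) ∧ ∃ m, Step s l m ∧ Weighted R m D

/-- Insertion of a Reidemeister II pair of crossings. -/
def InsR2 (D D' : List Slice) : Prop :=
  ∃ x y k b, D = x ++ y ∧ D' = x ++ .cross k b :: .cross k (!b) :: y

def nx (σ : Bool × Bool) (o : Bool) : Bool × Bool := (!σ.1, xor σ.2 (xor σ.1 (!o)))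

def vl (σ : Bool × Bool) (o : Bool) : ℤ := if xor σ.1 (!o) then sgn o * sgn (!σ.2) else 0

def lab : Bool × Bool → List Bool → List (Bool × ℤ)
  | _, [] => []
  | σ, o :: l => (o, vl σ o) :: lab (nx σ o) l

lemma lab_append (σ : Bool × Bool) (p q : List Bool) :
    lab σ (p ++ q) = lab σ p ++ lab (p.foldl nx σ) q := by
  induction p generalizing σ with
  | nil => rfl
  | cons o p ih => simp [lab, ih]

lemma lab_length (σ : Bool × Bool) (p : List Bool) : (lab σ p).length = p.length := by
  induction p generalizing σ with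
  | nil => rfl
  | cons o p ih => simp [lab, ih]

lemma vl_le : ∀ σ o, |vl σ o| ≤ 1 := by decide

lemma lab_le (σ : Bool × Bool) (p : List Bool) : ∀ e ∈ lab σ p, |e.2| ≤ 2 := by
  induction p generalizing σ with
  | nil => simp [lab]
  | cons o p ih =>
    intro e he
    rcases List.mem_cons.1 he with rfl | he
    · exact (vl_le σ o).trans (by norm_num)
    · exact ih _ e he

lemma l1 : ∀ σ o, nx (nx σ o) (!o) = σ ∧ vl (nx σ o) (!o) = vl σ o := by decide

lemma l2 : ∀ σ o o', nx (nx σ o) o' = nx (nx σ o') o := by decide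

lemma l3 : ∀ σ o o' b, (vl σ o' = vl (nx σ o) o' - sgn o' * sgn b ∧
    vl (nx σ o') o = vl σ o + sgn o * sgn b) ∨ ∃ c,
      vl σ o' = vl (nx σ o) o' - sgn o' * sgn b + sgn o' * sgn c - sgn o' * sgn (!c) ∧
      vl (nx σ o') o = vl σ o + sgn o * sgn b - sgn o * sgn c + sgn o * sgn (!c) ∧
      |vl (nx σ o) o' - sgn o' * sgn b| ≤ 2 ∧ |vl σ o + sgn o * sgn b| ≤ 2 ∧
      |vl (nx σ o) o' - sgn o' * sgn b + sgn o' * sgn c| ≤ 2 ∧
      |vl σ o + sgn o * sgn b - sgn o * sgn c| ≤ 2 := by decide

lemma ins_cons (s : Slice) {D D' : List Slice} (h : Relation.ReflTransGen InsR2 D D') :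
    Relation.ReflTransGen InsR2 (s :: D) (s :: D') := by
  refine Relation.ReflTransGen.lift (List.cons s) (fun a b h => ?_) _ _ h
  obtain ⟨x, y, k, c, rfl, rfl⟩ := h
  exact ⟨s :: x, y, k, c, rfl, rfl⟩

lemma main (σ : Bool × Bool) (D : List Slice) : ∀ l, Valid l D →
    ∃ D', Relation.ReflTransGen InsR2 D D' ∧ Weighted 2 (lab σ l) D' := by
  induction D with
  | nil =>
    rintro l rfl
    exact ⟨[], .refl, rfl⟩
  | cons s D ih =>
    rintro l ⟨m, h1, h2⟩
    obtain ⟨D', h3, h4⟩ := ih m h2
    rcases s with ⟨k, o⟩ | k | ⟨k, b⟩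
    · obtain ⟨p, q, hk, rfl, rfl⟩ := h1
      refine ⟨_, ins_cons _ h3, lab_le _ _, _, ⟨lab σ p, lab (p.foldl nx σ) q, vl (p.foldl nx σ) o,
        by rw [lab_length, hk], lab_append _ _ _, ?_⟩, h4⟩
      simp only [lab_append, lab, l1]
    · obtain ⟨p, q, o, hk, rfl, rfl⟩ := h1
      refine ⟨_, ins_cons _ h3, lab_le _ _, _, ⟨lab σ p, lab (p.foldl nx σ) q, o,
        vl (p.foldl nx σ) o, by rw [lab_length, hk], ?_, lab_append _ _ _⟩, h4⟩
      simp only [lab_append, lab, l1]
    · obtain ⟨p, q, o, o', hk, rfl, rfl⟩ := h1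
      have hp : (lab σ p).length = k := by rw [lab_length, hk]
      have hb : ∀ a b : Bool × ℤ, |a.2| ≤ 2 → |b.2| ≤ 2 → ∀ τ,
          ∀ e ∈ lab σ p ++ a :: b :: lab τ q, |e.2| ≤ 2 := by
        intro a b ha hb τ e he
        simp only [List.mem_append, List.mem_cons] at he
        rcases he with he | rfl | rfl | he
        · exact lab_le _ _ e he
        · exact ha
        · exact hb
        · exact lab_le _ _ e he
      simp only [lab_append, lab] at h4
      rcases l3 (p.foldl nx σ) o o' b with ⟨e1, e2⟩ | ⟨c, e1, e2, e3, e4, e5, e6⟩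
      · refine ⟨_, ins_cons _ h3, lab_le _ _, _, ⟨lab σ p, _, o, o', _, _, hp,
          by simp only [lab_append, lab]; rfl, rfl⟩, ?_⟩
        rwa [← e1, ← e2, l2]
      · refine ⟨.cross k b :: .cross k c :: .cross k (!c) :: D',
          (ins_cons _ h3).tail ⟨[_], _, k, c, rfl, rfl⟩, lab_le _ _, _,
          ⟨lab σ p, _, o, o', _, _, hp, by simp only [lab_append, lab]; rfl, rfl⟩,
          hb _ _ e3 e4 _, _, ⟨lab σ p, _, _, _, _, _, hp, rfl, rfl⟩, hb _ _ e6 e5 _, _,
          ⟨lab σ p, _, _, _, _, _, hp, rfl, rfl⟩, ?_⟩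
        rwa [← e1, ← e2, l2]

end Pool.Agent.H.MP_89478c_gt
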